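import Pool.Agent.Helper33.QB.Defs
import Pool.Agent.Helper30.QB.Ping

/-!
# Project QB, module O2: a homeomorphism of a tall space onto a tall closed subset
-/

set_option autoImplicit false
set_option linter.unusedSectionVars false

namespace Pool.Agent.Helper33.QB

open Set

universe v

variable {Ω : Type} {I : Type v} {α : Ordinal.{0}}

section O

variable [LinearOrder I] [WellFoundedLT I] {b : I → NmD Ω I} {i m : I} {p : Cnd Ω I}

private theorem h18_noacts {G : Unit → Ω → Ω → Prop} (hG : ∀ i x y, ¬ G i x y)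
    {g : FreeGroup Unit} {x y : Ω} (h : Acts G g x y) : g = 1 ∧ x = y := by
  induction h with
  | one x => exact ⟨rfl, rfl⟩
  | fwd _ h _ => exact absurd h (hG _ _ _)
  | bwd _ h _ => exact absurd h (hG _ _ _)

/-- A homeomorphism between two tall sets (no letters). -/
theorem exists_ce (hα : Ind α) (hp : Basic α p) (hT : Tall α p.R p.Y p.r) {E : Set Ω}
    (hE : Cl p.Y p.R E) {r' : Ω → Ordinal.{0}} (hr' : GR E (tr p.R E) r')
    (hTE : Tall α p.R E r') : ∃ h : Ω → Ω, CE p.Y p.R h ∧ h '' p.Y = E := by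
  let G : Unit → Ω → Ω → Prop := fun _ _ _ => False
  have hG : ∀ i x y, ¬ G i x y := fun _ _ _ h => h
  have hPF : PF G := ⟨fun _ _ _ _ h _ => False.elim h, fun _ _ _ _ h _ => False.elim h⟩
  have hYY : ∀ K ∈ p.R, K ∩ p.Y ∈ p.R := by
    intro K hK
    rwa [inter_eq_left.2 (hp.gr.sub K hK)]
  have hemp : Cl p.Y p.R ∅ :=
    ⟨empty_subset _, fun x hx _ => (hp.gr.cov x hx).imp fun K hK => ⟨hK.1, hK.2, inter_empty _⟩⟩
  have hCS : ClSys p.Y p.R G := by
    refine ⟨fun i x y h => False.elim h, fun i C _ => ?_, fun i C _ => ?_⟩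
    · have : {y | ∃ x ∈ C, G i x y} = ∅ := by
        ext y; simp [G]
      rw [this]; exact hemp
    · have : {x | ∃ y ∈ C, G i x y} = ∅ := by
        ext y; simp [G]
      rw [this]; exact hemp
  have hF : Free G := fun g x h => (h18_noacts hG h).1
  have hPr : Proper p.R G := fun K _ => by
    refine (finite_singleton (1 : FreeGroup Unit)).subset ?_
    rintro g ⟨x, _, y, _, h⟩
    exact (h18_noacts hG h).1
  obtain ⟨h, ⟨hbij, hiso⟩, -⟩ := ping_pong hα hp.gr hp.cY (fun x _ => hp.ra x) hPF hCS hF hPr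
    (i := ()) (A := p.Y) (B := E) Subset.rfl hYY hE hr' hT hTE (fun x _ y => hG () x y)
    (fun x _ y => hG () y x) hp.gr.emp
  have hmem : ∀ O : Set Ω, O ∈ tr p.R p.Y ↔ O ∈ p.R := by
    intro O
    constructor
    · rintro ⟨K, hK, rfl⟩
      exact hYY K hK
    · intro hO
      exact ⟨O, hO, (inter_eq_left.2 (hp.gr.sub O hO)).symm⟩
  refine ⟨h, ⟨fun x hx => hE.1 (hbij.mapsTo hx), hbij.injOn, ?_, ?_, ?_⟩, hbij.image_eq⟩
  · intro K hK
    obtain ⟨K', hK', he⟩ := (hiso K (hp.gr.sub K hK)).1 ((hmem K).2 hK)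
    exact ⟨K', hK', by rw [he, hbij.image_eq]⟩
  · intro K hK
    have hO : {x | x ∈ p.Y ∧ h x ∈ K} ⊆ p.Y := fun x hx => hx.1
    refine (hmem _).1 ((hiso _ hO).2 ⟨K, hK, ?_⟩)
    ext y
    constructor
    · rintro ⟨x, ⟨hx, hxK⟩, rfl⟩
      exact ⟨hxK, hbij.mapsTo hx⟩
    · rintro ⟨hyK, hyE⟩
      obtain ⟨x, hx, rfl⟩ := hbij.surjOn hyE
      exact ⟨x, ⟨hx, hyK⟩, rfl⟩
  · rw [hbij.image_eq]; exact hE

end O

end Pool.Agent.Helper33.QB
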