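import Pool.Agent.Helper33.QB.Frame
import Pool.Agent.Helper54.QB.NameLemmas
import Pool.Agent.Helper38.QB.Gd1

/-!
# Project QB, MD10: the map of a letter is a homeomorphism onto its range
-/

set_option autoImplicit false

namespace Pool.Agent.Helper33.QB

open Set Pool.Agent.Helper33.HMG Pool.Agent.Helper32.HB

section MD

variable {Ω : Type} [LinearOrder Ω] [WellFoundedLT Ω] {α : Ordinal.{0}} [Fact (Ind α)]
  {b : Ordinal.{0} → NmD Ω Ordinal.{0}} {R : Type}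
  {W : R → (ℕ → Nm (CP Ω α b)) → CP Ω α b → Nm (CP Ω α b) → Prop} {a0 : Ω} {g : Gen W}
  {i : Ordinal.{0}} {k : ℕ}

/-- The meaning of the name of the map of a letter, below a condition with the letter. -/
theorem h18_hN {p q : CP Ω α b} (hi : i ∈ p.1.S) (hq : q ≤ p) {x y : Ω}
    (h : fmem (opN (ck x) (ck y)) (hN i) q) :
    (x ∈ p.1.Y ∧ y ∈ p.1.Y ∧ y = p.1.h i x) ∨ (x ∉ p.1.Y ∧ y ∉ p.1.Y) := by
  obtain ⟨s, hs, p', ⟨hp1, hp2, hp3⟩, hsp⟩ := fmem_relN.1 h q le_rfl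
  have hsp' : Le s.1 p'.1 := hsp
  have hs' : Le s.1 p.1 := hs.trans hq
  have e : s.1.h i x = y := by rw [hsp'.h i hp1 x hp2, hp3]
  by_cases hx : x ∈ p.1.Y
  · have e' : y = p.1.h i x := by rw [← e, hs'.h i hi x hx]
    exact Or.inl ⟨hx, e' ▸ (p.basic.ce i hi).maps x hx, e'⟩
  · exact Or.inr ⟨hx, e ▸ hs'.out i hi x (hsp'.cp.sub hp2) hx⟩

theorem Gd.homeo (hg : Gd a0 g) (hi : (hN i : Nm (CP Ω α b)) ∈ g.N) (hk : i ∈ (g.pc k).1.S)
    {h : OM g → OM g} (hh : ∀ x, ∃ l ≥ k, x.1 ∈ (g.pc l).1.Y ∧ (h x).1 = (g.pc l).1.h i x.1)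
    {E : Set (OM g)} (hE : BijOn h univ E) :
    (∀ K ∈ RM g, ∃ K' ∈ RM g, h '' K = K' ∩ E) ∧ ∀ K' ∈ RM g, ∃ K ∈ RM g, h '' K = K' ∩ E := by
  -- the letter belongs to the later conditions
  have hS : ∀ l ≥ k, i ∈ (g.pc l).1.S := fun l hl => (g.pc_le hl).S hk
  -- the ring members stay in the ring
  have hR : ∀ {K0 : Set Ω} {k1 l : ℕ}, k1 ≤ l → K0 ∈ (g.pc k1).1.R → K0 ∈ (g.pc l).1.R :=
    fun hl hK => (((g.pc_le hl).cp.ring _).1 hK).1
  -- the values of `h` are forced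
  have hf : ∀ (x : OM g) (l : ℕ), ∃ l' ≥ l,
      fmem (opN (ck x.1) (ck (h x).1)) (hN i : Nm (CP Ω α b)) (g.pc l') := by
    intro x l
    obtain ⟨l1, hl1, hx, e⟩ := hh x
    refine ⟨max l l1, le_max_left _ _, fmem_relN.2 fun q hq => ⟨q, le_rfl, g.pc l1,
      ⟨hS l1 hl1, hx, e⟩, hq.trans (g.pc_le (le_max_right _ _))⟩⟩
  -- the conclusion from sets with the right property
  have key : ∀ {K K' : Set (OM g)} {K0 K0' : Set Ω} {l : ℕ}, (∀ x : OM g, x ∈ K ↔ x.1 ∈ K0) →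
      (∀ x : OM g, x ∈ K' ↔ x.1 ∈ K0') →
      (∀ q ≤ g.pc l, ∀ x y : Ω, fmem (opN (ck x) (ck y)) (hN i : Nm (CP Ω α b)) q →
        (x ∈ K0 ↔ y ∈ K0')) → h '' K = K' ∩ E := by
    intro K K' K0 K0' l hK hK' hq
    have hx : ∀ x : OM g, x ∈ K ↔ h x ∈ K' := by
      intro x
      obtain ⟨l', hl', hf'⟩ := hf x l
      rw [hK, hK']
      exact hq _ (g.pc_le hl') _ _ hf'
    ext z
    constructor
    · rintro ⟨x, hxK, rfl⟩
      exact ⟨(hx x).1 hxK, hE.mapsTo (mem_univ x)⟩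
    · rintro ⟨hzK, hzE⟩
      obtain ⟨x, -, rfl⟩ := hE.surjOn hzE
      exact ⟨x, (hx x).2 hzK, rfl⟩
  constructor
  · rintro K ⟨K0, hN0, ⟨k1, hk1⟩, hK⟩
    obtain ⟨l, X, hX, K1, K', hK', e1, rfl, hq⟩ := hg.get (.inl .rimg) [hN i, ckS K0]
      (by simp [hi, hN0]) (k := max k k1) (by
        intro l hl
        have hkl : k ≤ l := (le_max_left _ _).trans hl
        have hK0 := hR ((le_max_right _ _).trans hl) hk1
        have hil := hS l hkl
        obtain ⟨K', hK', e⟩ := ((g.pc l).basic.ce i hil).img K0 hK0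
        have hinj := ((g.pc l).basic.ce i hil).inj
        have hsub := (g.pc l).basic.gr.sub
        refine ⟨g.pc l, le_rfl, ckS K', K0, K', hK', rfl, rfl, fun q hq x y hxy => ?_⟩
        rcases h18_hN hil hq hxy with ⟨hx, hy, e'⟩ | ⟨hx, hy⟩
        · constructor
          · intro hxK
            have : y ∈ K' ∩ (g.pc l).1.h i '' (g.pc l).1.Y := e ▸ ⟨x, hxK, e'.symm⟩
            exact this.1
          · intro hyK
            have : y ∈ (g.pc l).1.h i '' K0 := e ▸ ⟨hyK, x, hx, e'.symm⟩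
            obtain ⟨x', hx', e2⟩ := this
            have : x' = x := hinj (hsub K0 hK0 hx') hx (e2.trans e')
            exact this ▸ hx'
        · exact ⟨fun hxK => absurd (hsub K0 hK0 hxK) hx, fun hyK => absurd (hsub K' hK' hyK) hy⟩)
    have e0 : K1 = K0 := (ckS_inj e1).symm
    subst e0
    exact ⟨{x | x.1 ∈ K'}, ⟨K', hX, ⟨l, hK'⟩, fun x => Iff.rfl⟩, key hK (fun x => Iff.rfl) hq⟩
  · rintro K' ⟨K0, hN0, ⟨k1, hk1⟩, hK⟩
    obtain ⟨l, X, hX, K1, K', hK', e1, rfl, hq⟩ := hg.get (.inl .rpre) [hN i, ckS K0]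
      (by simp [hi, hN0]) (k := max k k1) (by
        intro l hl
        have hkl : k ≤ l := (le_max_left _ _).trans hl
        have hK0 := hR ((le_max_right _ _).trans hl) hk1
        have hil := hS l hkl
        have hK' := ((g.pc l).basic.ce i hil).pre K0 hK0
        have hsub := (g.pc l).basic.gr.sub
        refine ⟨g.pc l, le_rfl, _, K0, _, hK', rfl, rfl, fun q hq x y hxy => ?_⟩
        rcases h18_hN hil hq hxy with ⟨hx, hy, e'⟩ | ⟨hx, hy⟩
        · rw [e']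
          exact ⟨fun h => h.2, fun h => ⟨hx, h⟩⟩
        · exact ⟨fun hxK => absurd hxK.1 hx, fun hyK => absurd (hsub K0 hK0 hyK) hy⟩)
    have e0 : K1 = K0 := (ckS_inj e1).symm
    subst e0
    exact ⟨{x | x.1 ∈ K'}, ⟨K', hX, ⟨l, hK'⟩, fun x => Iff.rfl⟩, key (fun x => Iff.rfl) hK hq⟩

end MD

end Pool.Agent.Helper33.QB
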