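import Pool.Agent.Helper64.QB.NmDefs
import Pool.Agent.Helper61.QB.Order

/-!
# Project QB, module H1: the derived sets of a name form a name
-/

set_option autoImplicit false

namespace Pool.Agent.Helper33.QB

open Set

universe v

variable {Ω : Type} {I : Type v} {α : Ordinal.{0}}

theorem LimT.nm {P : Set (Cnd Ω I)} (hb : ∀ p ∈ P, Basic α p) {T : Cnd Ω I → Set Ω}
    (hT : NmT P T) (ρ : Ordinal.{0}) : NmT P (LimT T ρ) := by
  refine ⟨fun p _ x hx => hx.1, fun p hp q hq hle x hx => ⟨hle.cp.sub hx.1, ?_⟩⟩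
  intro E hE hTE r' hr'
  have hcl : Cl p.Y p.R (E ∩ p.Y) := hle.cp.cl hE
  have hrk := hle.cp.rank (hb q hq).gr hr'
  have hsub : T p ⊆ E ∩ p.Y := fun y hy => ⟨hTE (hT.2 p hp q hq hle hy), hT.1 p hp hy⟩
  obtain ⟨h1, h2⟩ := hx.2 _ hcl hsub r' hrk
  exact ⟨h1.1, h2⟩

end Pool.Agent.Helper33.QB
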