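import Pool.Agent.Helper72.QB.NmDense
import Pool.Agent.Helper90.QB.Closed

/-!
# Project QB, P6: the name of a closed set given by the decisions of a closed stage
-/

set_option autoImplicit false

namespace Pool.Agent.Helper33.QB

open Set Pool.Agent.Helper33.HMG Pool.Agent.Helper32.HB

section P

variable {Ω : Type} {α : Ordinal.{0}} {b : Ordinal.{0} → NmD Ω Ordinal.{0}}

variable {inn : CP Ω α b → Ω → Prop} {p0 : CP Ω α b} {i j : Ordinal.{0}}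

/-- A condition above `p` in the stage `j` is above `res p j`. -/
theorem h18_res_le {p q : Cnd Ω Ordinal.{0}} (hq : q ∈ V α b j) (h : Le p q) :
    Le (res p j) q := by
  have h1 := h.res j
  rwa [res_eq_self (V.basic hq) (V.letters hq)] at h1

theorem nm_cons (hm : ∀ p q x, q ≤ p → inn p x → inn q x) {p : Cnd Ω Ordinal.{0}}
    (hp : p ∈ V α b i) {x : Ω} {p' p'' : Cnd Ω Ordinal.{0}}
    (h1 : (p', x, true) ∈ (nmOf inn p0 j).f) (h2 : (p'', x, false) ∈ (nmOf inn p0 j).f)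
    (h1' : Le p p') (h2' : Le p p'') : False := by
  obtain ⟨q1, -, rfl, (⟨-, h1⟩ | ⟨h1, -⟩)⟩ := h1
  · obtain ⟨q2, -, rfl, (⟨h2, -⟩ | ⟨-, h2⟩)⟩ := h2
    · cases h2
    · exact h2 ⟨p, i, hp⟩ h2' (hm q1 ⟨p, i, hp⟩ x h1' h1)
  · cases h1

theorem nm_closed [Uncountable Ω] (hα : Ind α) (hm : ∀ p q x, q ≤ p → inn p x → inn q x)
    (hc : Closed inn p0 j) (hji : j ≤ i) {p : Cnd Ω Ordinal.{0}} (hp : p ∈ V α b i)
    (hd : Dec (nmOf inn p0 j) p) : Cl p.Y p.R (ev (nmOf inn p0 j) p) := by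
  refine ⟨fun x hx => hx.1, fun x hx hxe => ?_⟩
  obtain ⟨ε, p', hf, hle⟩ := hd.2 x hx
  cases ε with
  | true => exact absurd ⟨hx, p', hf, hle⟩ hxe
  | false =>
    obtain ⟨q1, hq1, rfl, (⟨h1, -⟩ | ⟨-, h1⟩)⟩ := hf
    · cases h1
    have hrV : res p j ∈ V α b j := V.res_mem hp j
    let pr : CP Ω α b := ⟨res p j, j, hrV⟩
    have hr1 : pr ≤ q1 := h18_res_le hq1 hle
    have hr0 : pr ≤ p0 := h18_res_le hc.mem hd.1
    obtain ⟨q, hq, hqV, K, hK, hxK, hKi⟩ := hc.cl pr hrV hr0 x hx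
      fun q hq => h1 q (hq.trans hr1)
    have hqp : Le q.1 (res p j) := hq
    refine ⟨K ∩ p.Y, ?_, ⟨hxK, hx⟩, ?_⟩
    · exact (hqp.cp.ring (K ∩ p.Y)).2 ⟨hqp.cp.cut K hK, inter_subset_right⟩
    · rw [eq_empty_iff_forall_notMem]
      rintro c ⟨⟨hcK, -⟩, -, p'', hf'', hle''⟩
      obtain ⟨q2, hq2, rfl, (⟨-, h2⟩ | ⟨h2, -⟩)⟩ := hf''
      · obtain ⟨r, hr, hrp, hrq⟩ := dense_compat hα hji hp hqV hqp
        have hr2 : Le r q2.1 := Le.trans' (V.basic hr) (V.basic hp) hrp hle''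
        let Q : CP Ω α b := ⟨res r j, j, V.res_mem hr j⟩
        have hQ2 : Q ≤ q2 := h18_res_le hq2 hr2
        exact hKi Q hrq c hcK (hm q2 Q c hQ2 h2)
      · cases h2

end P

end Pool.Agent.Helper33.QB
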