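import Pool.Agent.Helper5.QB.SLemma
import Pool.Agent.Helper63.QB.Union
import Pool.Agent.Helper87.QB.Rank

/-!
# Project QB, module I: nice names are tall
-/

set_option autoImplicit false

namespace Pool.Agent.Helper33.QB

open Set

universe v

variable {Ω : Type} {I : Type v} {α : Ordinal.{0}}

private theorem h18_enum (hα : Ind α) :
    ∃ ρ : ℕ → Ordinal.{0}, (∀ n, ρ n < α) ∧ ∀ β, β < α → ∀ m : ℕ, ∃ n, m ≤ n ∧ ρ n = β := by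
  have hne : (Iio α).Nonempty := ⟨1, hα.one⟩
  obtain ⟨f, hf⟩ := hα.ctb.exists_eq_range hne
  refine ⟨fun n => f n.unpair.1, fun n => ?_, fun β hβ m => ?_⟩
  · have : f n.unpair.1 ∈ Iio α := by rw [hf]; exact mem_range_self _
    exact this
  · have hβ' : β ∈ range f := by rw [← hf]; exact hβ
    obtain ⟨k, hk⟩ := hβ'
    exact ⟨Nat.pair k m, Nat.right_le_pair _ _, by simp only [Nat.unpair_pair, hk]⟩

private theorem h18_ev_mono {d : NmD Ω I} {p q : Cnd Ω I} (hq : Basic α q) (hp : Basic α p)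
    (hqp : Le q p) : ev d p ⊆ ev d q := by
  rintro a ⟨ha, p', hp', hle⟩
  exact ⟨hqp.cp.sub ha, p', hp', Le.trans' hq hp hqp hle⟩

theorem tall_name (hα : Ind α) {P : Set (Cnd Ω I)} (hb : ∀ p ∈ P, Basic α p) (hsc : SC P)
    (hlim : LimSpec α P) {d : NmD Ω I} (hd : Nice d P) {p : Cnd Ω I} (hp : p ∈ P)
    (hpc : Le p d.c) : ∃ q ∈ P, Le q p ∧ Dec d q ∧ ∃ r', GR (ev d q) (tr q.R (ev d q)) r' ∧
      Tall α q.R (ev d q \ p.Y) r' := by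
  classical
  set T : Cnd Ω I → Set Ω := fun q => ev d q \ p.Y with hTdef
  have hT : NmT P T := by
    refine ⟨fun q _ x hx => hx.1.1, fun q hq q' hq' hle x hx => ⟨?_, hx.2⟩⟩
    exact h18_ev_mono (hb _ hq') (hb _ hq) hle hx.1
  have hu : Unb P T p := by
    intro q hq hqp
    obtain ⟨q1, hq1, h1, hd1⟩ := hd.dense q hq (Le.trans' (hb _ hq) (hb _ hp) hqp hpc)
    obtain ⟨q2, hq2, h2, _, y, hy, hy1⟩ := hd.unb q1 hq1 hd1
    have h1s := h1.cp.sub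
    have hqps := hqp.cp.sub
    exact ⟨q2, hq2, Le.trans' (hb _ hq2) (hb _ hq1) h2 h1, y,
      ⟨hy, fun hyp => hy1 (h1s (hqps hyp))⟩, fun hyq => hy1 (h1s hyq)⟩
  obtain ⟨ρ, hρ, hρ'⟩ := h18_enum hα
  -- one step
  have hstep : ∀ n : ℕ, ∀ q : {q : Cnd Ω I // q ∈ P ∧ Le q p}, ∃ q2 : {q : Cnd Ω I // q ∈ P ∧ Le q p},
      ∃ q1 ∈ P, Le q1 q.1 ∧ Dec d q1 ∧ Le q2.1 q1 ∧ ∃ x ∈ LimT T (ρ n) q2.1, x ∉ q1.Y := by
    rintro n ⟨q, hq, hqp⟩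
    obtain ⟨q1, hq1, h1, hd1⟩ := hd.dense q hq (Le.trans' (hb _ hq) (hb _ hp) hqp hpc)
    have h1p : Le q1 p := Le.trans' (hb _ hq1) (hb _ hq) h1 hqp
    obtain ⟨q2, hq2, h2, x, hx, hx1⟩ := s_lemma hα hb hsc hlim (hρ n) hT hp hu ∅ (fun _ => 0)
      (by simp) (by simp) q1 hq1 h1p
    exact ⟨⟨q2, hq2, Le.trans' (hb _ hq2) (hb _ hq1) h2 h1p⟩, q1, hq1, h1, hd1, h2, x, hx.1, hx1⟩
  choose nx hnx using hstep
  let pn : ℕ → {q : Cnd Ω I // q ∈ P ∧ Le q p} := fun n =>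
    Nat.rec ⟨p, hp, Le.refl' (hb _ hp).gr⟩ (fun k q => nx k q) n
  have hpn0 : (pn 0).1 = p := rfl
  have hpnS : ∀ n, pn (n + 1) = nx n (pn n) := fun n => rfl
  have hB : ∀ n, Basic α (pn n).1 := fun n => hb _ (pn n).2.1
  have hle : ∀ n, Le (pn (n + 1)).1 (pn n).1 := by
    intro n
    obtain ⟨q1, hq1, h1, -, h2, -⟩ := hnx n (pn n)
    rw [hpnS]
    exact Le.trans' (hb _ (nx n (pn n)).2.1) (hb _ hq1) h2 h1
  obtain ⟨q, hqP, hun⟩ := hsc (fun n => (pn n).1) (fun n => (pn n).2.1) hle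
  have hqB := hb _ hqP
  have hqp : Le q p := hun.le 0
  have hqD : Dec d q := by
    refine ⟨Le.trans' hqB (hb _ hp) hqp hpc, fun a ha => ?_⟩
    rw [hun.Y] at ha
    obtain ⟨n, hn⟩ := mem_iUnion.1 ha
    obtain ⟨q1, hq1, h1, hd1, h2, -⟩ := hnx n (pn n)
    obtain ⟨ε, p', hp', hle'⟩ := hd1.2 a (h1.cp.sub hn)
    refine ⟨ε, p', hp', ?_⟩
    have h3 : Le q (nx n (pn n)).1 := hun.le (n + 1)
    have h4 : Le q q1 := Le.trans' hqB (hb _ (nx n (pn n)).2.1) h3 h2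
    exact Le.trans' hqB (hb _ hq1) h4 hle'
  have hE : Cl q.Y q.R (ev d q) := hd.closed q hqP hqD
  obtain ⟨r', hr', -, -⟩ := exists_rank hqB.gr hE
  refine ⟨q, hqP, hqp, hqD, r', hr', ?_⟩
  intro β hβ K hK
  obtain ⟨n0, hn0⟩ := hun.R K hK
  obtain ⟨n, hn, hnβ⟩ := hρ' β hβ n0
  obtain ⟨q1, hq1, h1, hd1, h2, x, hx, hx1⟩ := hnx n (pn n)
  have h3 : Le q (nx n (pn n)).1 := hun.le (n + 1)
  have hseq : Le (pn n).1 (pn n0).1 := Le.seq (pn := fun n => (pn n).1) hB hle hn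
  have hx0 : x ∉ (pn n).1.Y := fun h => hx1 (h1.cp.sub h)
  have hcl : Cl (nx n (pn n)).1.Y (nx n (pn n)).1.R (ev d q ∩ (nx n (pn n)).1.Y) := h3.cp.cl hE
  have hrk := h3.cp.rank hqB.gr hr'
  have hsub : T (nx n (pn n)).1 ⊆ ev d q ∩ (nx n (pn n)).1.Y := by
    intro y hy
    exact ⟨h18_ev_mono hqB (hb _ (nx n (pn n)).2.1) h3 hy.1, hy.1.1⟩
  obtain ⟨hxE, hxr⟩ := hx.2 _ hcl hsub r' hrk
  refine ⟨x, ⟨hxE.1, ?_⟩, ?_, by rw [← hnβ]; exact hxr⟩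
  · intro hxp
    exact hx0 ((pn n).2.2.cp.sub hxp)
  · intro hxK
    exact hx0 (hseq.cp.sub ((hB n0).gr.sub K hn0 hxK))

end Pool.Agent.Helper33.QB
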